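import Pool.Agent.Y520.MB.Roll
import Pool.Agent.Y815.MB.Ell

/-! Convex bodies in which a ball rolls freely, parallel bodies, ellipsoids. -/

set_option autoImplicit false

namespace Pool.Agent.Y520.MB

open scoped RealInnerProductSpace ContDiff Topology

/-- A boundary point of a convex set on a ball contained in the set. -/
theorem tch_of_ball {r : ℝ} (hr : 0 < r) {K : Set E4} (hK : Convex ℝ K) {p c : E4}
    (hp : p ∈ frontier K) (hpc : p ∈ Metric.closedBall c r) (hcK : Metric.closedBall c r ⊆ K) :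
    ∃ ν, Tch r K p ν := by
  have hcint : c ∈ interior K :=
    interior_maximal (Metric.ball_subset_closedBall.trans hcK) Metric.isOpen_ball
      (Metric.mem_ball_self hr)
  obtain ⟨f, hf⟩ := geometric_hahn_banach_open_point hK.interior isOpen_interior hp.2
  have hfK : ∀ y ∈ K, f y ≤ f p := by
    intro y hy
    have h1 : closure (interior K) = closure K :=
      hK.closure_interior_eq_closure_of_nonempty_interior ⟨c, hcint⟩
    have h2 : y ∈ closure (interior K) := by rw [h1]; exact subset_closure hy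
    have h3 : IsClosed {z | f z ≤ f p} := isClosed_le f.continuous continuous_const
    exact (closure_minimal (fun z hz => (hf z hz).le) h3) h2
  set w := (InnerProductSpace.toDual ℝ E4).symm f with hw
  have hfw : ∀ y, f y = ⟪w, y⟫ := fun y => by
    rw [hw, InnerProductSpace.toDual_symm_apply]
  have hwne : w ≠ 0 := by
    intro h0
    have := hf c hcint
    rw [hfw, hfw, h0, inner_zero_left, inner_zero_left] at this
    exact lt_irrefl _ this
  have hwn : 0 < ‖w‖ := norm_pos_iff.2 hwne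
  set ν : E4 := ‖w‖⁻¹ • w with hν
  have hνu : ‖ν‖ = 1 := by
    rw [hν, norm_smul, norm_inv, norm_norm, inv_mul_cancel₀ hwn.ne']
  have hνi : ∀ y, ⟪ν, y⟫ = ‖w‖⁻¹ * f y := by
    intro y
    rw [hν, real_inner_smul_left, hfw]
  have hwi : 0 < ‖w‖⁻¹ := inv_pos.2 hwn
  have hle : ∀ y ∈ K, ⟪ν, y⟫ ≤ ⟪ν, p⟫ := by
    intro y hy
    rw [hνi, hνi]
    exact mul_le_mul_of_nonneg_left (hfK y hy) hwi.le
  have h1 : c + r • ν ∈ K := by
    apply hcK
    rw [Metric.mem_closedBall, dist_eq_norm, add_sub_cancel_left, norm_smul, hνu, mul_one,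
      Real.norm_eq_abs, abs_of_pos hr]
  have h2 := hle _ h1
  rw [inner_add_right, real_inner_smul_right, real_inner_self_eq_norm_sq, hνu] at h2
  have h3 : ‖p - c‖ ≤ r := by rwa [Metric.mem_closedBall, dist_eq_norm] at hpc
  have h4 : ‖(p - c) + (-r) • ν‖ ^ 2 ≤ 0 := by
    rw [nsq _ _ _ hνu, inner_sub_right]
    have h5 : ‖p - c‖ ^ 2 ≤ r ^ 2 := by gcongr
    nlinarith
  have h5 : (p - c) + (-r) • ν = 0 := by
    have : ‖(p - c) + (-r) • ν‖ = 0 := by
      have := norm_nonneg ((p - c) + (-r) • ν)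
      nlinarith
    exact norm_eq_zero.1 this
  have h6 : p - r • ν = c := by
    rw [neg_smul, ← sub_eq_add_neg, sub_right_comm, sub_eq_zero] at h5
    exact h5
  refine ⟨ν, hνu, by rw [h6]; exact hcK, fun y hy => ?_⟩
  rw [inner_sub_right]
  have := hle y hy
  linarith

/-- Bodies between an inner and an outer touching ball. -/
theorem tch_of_rolling {r R : ℝ} {K : Set E4} (h : Rolling r R K) {p : E4} (hp : p ∈ frontier K) :
    (∃ ν, Tch r K p ν) ∧ Bornology.IsBounded K := by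
  obtain ⟨ν, hν, hin, hout⟩ := h.touch p hp
  have hr := h.pos
  have key : ∀ y ∈ K, ‖y - p‖ ^ 2 ≤ 2 * R * ⟪ν, p - y⟫ := by
    intro y hy
    have h1 := hout hy
    rw [Metric.mem_closedBall, dist_eq_norm, show y - (p - R • ν) = (y - p) + R • ν by abel] at h1
    have h2 : ‖(y - p) + R • ν‖ ^ 2 ≤ R ^ 2 := by
      have h0 := norm_nonneg ((y - p) + R • ν)
      nlinarith
    rw [nsq _ _ _ hν] at h2
    have h3 : ⟪ν, p - y⟫ = - ⟪ν, y - p⟫ := by rw [← inner_neg_right, neg_sub]
    rw [h3]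
    linarith
  have hR : 0 < R := by
    have h1 : p - (2 * r) • ν ∈ K := by
      apply hin
      rw [Metric.mem_closedBall, dist_eq_norm,
        show p - (2 * r) • ν - (p - r • ν) = -(r • ν) by module, norm_neg, norm_smul, hν,
        mul_one, Real.norm_eq_abs, abs_of_pos hr]
    have h2 := key _ h1
    rw [show p - (2 * r) • ν - p = -((2 * r) • ν) by abel,
      show p - (p - (2 * r) • ν) = (2 * r) • ν by abel, norm_neg, norm_smul, hν, mul_one,
      real_inner_smul_right, real_inner_self_eq_norm_sq, hν, Real.norm_eq_abs, sq_abs] at h2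
    by_contra hR
    push Not at hR
    nlinarith
  refine ⟨⟨ν, hν, hin, fun y hy => ?_⟩, Metric.isBounded_closedBall.subset hout⟩
  have h1 := key y hy
  by_contra hneg
  push Not at hneg
  have h2 : 2 * R * ⟪ν, p - y⟫ < 0 := mul_neg_of_pos_of_neg (by linarith) hneg
  have := sq_nonneg ‖y - p‖
  linarith

/-- Convex bodies. -/
theorem no_band_convex (K : Set E4) (r : ℝ) (hr : 0 < r) (hKc : IsCompact K) (hK : Convex ℝ K)
    (hroll : ∀ p ∈ frontier K, ∃ c : E4, p ∈ Metric.closedBall c r ∧ Metric.closedBall c r ⊆ K)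
    (a : ℝ) (ha0 : 0 < a) (ha : a < √2 * r) :
    ¬ ∃ g : MoebiusBand a → E4, IsIsometricImmersion a g ∧ ∀ p, g p ∈ frontier K := by
  refine roll' r K hr hKc.isClosed hKc.isBounded (fun p hp => ?_) a ha0 ha
  obtain ⟨c, h1, h2⟩ := hroll p hp
  exact tch_of_ball hr hK hp h1 h2

/-- Parallel bodies. -/
theorem no_band_parallel (C : Set E4) (r : ℝ) (hr : 0 < r) (hCc : IsCompact C) (hC : Convex ℝ C)
    (a : ℝ) (ha0 : 0 < a) (ha : a < √2 * r) :
    ¬ ∃ g : MoebiusBand a → E4, IsIsometricImmersion a g ∧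
      ∀ p, g p ∈ frontier (Metric.cthickening r C) := by
  refine no_band_convex _ r hr hCc.cthickening (hC.cthickening r) (fun p hp => ?_) a ha0 ha
  have h1 : p ∈ Metric.cthickening r C := Metric.isClosed_cthickening.frontier_subset hp
  rw [hCc.cthickening_eq_biUnion_closedBall hr.le] at h1
  simp only [Set.mem_iUnion] at h1
  obtain ⟨c, hc, hpc⟩ := h1
  exact ⟨c, hpc, Metric.closedBall_subset_cthickening hc r⟩

/-- Ellipsoids. -/
theorem no_band_ellipsoid (c : Fin 4 → ℝ) (E : Set E4) (hE : IsEllipsoid c E)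
    (a : ℝ) (ha0 : 0 < a) (ha : ∀ i j, a * c i < √2 * (c j) ^ 2) :
    ¬ ∃ g : MoebiusBand a → E4, IsIsometricImmersion a g ∧ ∀ p, g p ∈ E := by
  have hc : ∀ i, 0 < c i := by
    obtain ⟨A, h, -⟩ := hE
    exact h
  obtain ⟨⟨i₀, j₀⟩, -, hmin⟩ := Finset.exists_min_image (Finset.univ : Finset (Fin 4 × Fin 4))
    (fun q => (c q.2) ^ 2 / c q.1) ⟨(0, 0), Finset.mem_univ _⟩
  set r : ℝ := (c j₀) ^ 2 / c i₀ with hr
  have hr0 : 0 < r := div_pos (pow_pos (hc _) 2) (hc _)
  have hrc : ∀ i j, r * c i ≤ (c j) ^ 2 := by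
    intro i j
    have h1 : r ≤ (c j) ^ 2 / c i := hmin (i, j) (Finset.mem_univ _)
    rwa [le_div_iff₀ (hc i)] at h1
  have har : a < √2 * r := by
    rw [hr, ← mul_div_assoc, lt_div_iff₀ (hc i₀)]
    exact ha i₀ j₀
  obtain ⟨R, K, hK, hfr⟩ := Pool.Agent.Y815.MB.ell c E hE r hr0 hrc
  rintro ⟨g, hg, hgE⟩
  have hg' : ∀ p, g p ∈ frontier K := fun p => by rw [hfr]; exact hgE p
  have hb := (tch_of_rolling hK (hg' (proj a 0))).2
  exact roll' r K hr0 hK.closed hb (fun p hp => (tch_of_rolling hK hp).1) a ha0 har ⟨g, hg, hg'⟩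

end Pool.Agent.Y520.MB
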