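import Pool.Agent.Y520.MB.Stm
import Pool.Agent.Results.MP_174134_gt.NoSingleEllipsoid

/-! Flat Moebius bands in the boundary of a convex body in which a ball rolls freely: the proof. -/

set_option autoImplicit false

namespace Pool.Agent.Y520.MB

open scoped RealInnerProductSpace ContDiff Topology
open Pool.Agent.Results.MP_174134_gt.NoSingleEllipsoid (D D_smooth D_comm D_lin D_smul_add D_inner
  D_const metric tang gauss exists_asymptotic D_D_nonneg D_D_lin pt pt_zero pt_one pt_eta pt_dist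
  continuous_pt lip per)

/-- The touching ball and the supporting half space at the point `p` with unit normal `ν`. -/
structure Tch (r : ℝ) (K : Set E4) (p ν : E4) : Prop where
  unit : ‖ν‖ = 1
  inner : Metric.closedBall (p - r • ν) r ⊆ K
  half : ∀ y ∈ K, 0 ≤ ⟪ν, p - y⟫

section elementary

variable {r : ℝ} {K : Set E4}

theorem nsq (x ν : E4) (c : ℝ) (hν : ‖ν‖ = 1) :
    ‖x + c • ν‖ ^ 2 = ‖x‖ ^ 2 + 2 * c * ⟪ν, x⟫ + c ^ 2 := by
  rw [norm_add_sq_real, real_inner_smul_right, norm_smul, hν, real_inner_comm, mul_one,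
    Real.norm_eq_abs, sq_abs]
  ring

/-- the inner ball -/
theorem A2 (hr : 0 < r) {p₀ ν₀ : E4} (h : Tch r K p₀ ν₀) {p : E4} (hp : p ∈ frontier K) :
    2 * r * ⟪ν₀, p₀ - p⟫ ≤ ‖p - p₀‖ ^ 2 := by
  have h1 : p ∉ Metric.ball (p₀ - r • ν₀) r := by
    intro hb
    have : Metric.ball (p₀ - r • ν₀) r ⊆ interior K :=
      interior_maximal (Metric.ball_subset_closedBall.trans h.inner) Metric.isOpen_ball
    exact hp.2 (this hb)
  rw [Metric.mem_ball, dist_eq_norm, not_lt,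
    show p - (p₀ - r • ν₀) = (p - p₀) + r • ν₀ by abel] at h1
  have h2 : r ^ 2 ≤ ‖(p - p₀) + r • ν₀‖ ^ 2 := by gcongr
  rw [nsq _ _ _ h.unit] at h2
  have h3 : ⟪ν₀, p₀ - p⟫ = - ⟪ν₀, p - p₀⟫ := by rw [← inner_neg_right, neg_sub]
  rw [h3]
  linarith

/-- the normals -/
theorem A3 (hr : 0 < r) {p₀ ν₀ p ν : E4} (h₀ : Tch r K p₀ ν₀) (h : Tch r K p ν) :
    r * (1 - ⟪ν₀, ν⟫) ≤ ⟪ν₀, p₀ - p⟫ := by
  have h1 : p - r • ν + r • ν₀ ∈ K := by
    apply h.inner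
    rw [Metric.mem_closedBall, dist_eq_norm, add_sub_cancel_left, norm_smul, h₀.unit, mul_one,
      Real.norm_eq_abs, abs_of_pos hr]
  have h2 := h₀.half _ h1
  rw [show p₀ - (p - r • ν + r • ν₀) = (p₀ - p) + r • ν - r • ν₀ by abel, inner_sub_right,
    inner_add_right, real_inner_smul_right, real_inner_smul_right, real_inner_self_eq_norm_sq,
    h₀.unit] at h2
  linarith

end elementary

section form

variable {r : ℝ} {K : Set E4} {F : Plane → E4} (hF : ContDiff ℝ ∞ F)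
  (hiso : ∀ x w, ‖fderiv ℝ F x w‖ = ‖w‖) (hr : 0 < r) (hK : ∀ x, F x ∈ K)

include hF in
theorem D_sub_const (c : E4) (u : Plane) : D u (fun y => F y - c) = D u F := by
  funext y
  unfold D
  rw [fderiv_sub_const]

include hF hK in
theorem form_neg {x : Plane} {ν : E4} (h : Tch r K (F x) ν) (X : Plane) :
    ⟪ν, D X F x⟫ = 0 ∧ ⟪ν, D X (D X F) x⟫ ≤ 0 := by
  have hc : ContDiff ℝ ∞ (fun _ : Plane => -ν) := contDiff_const
  have hνG : ContDiff ℝ ∞ (fun y => ⟪-ν, F y⟫) := hc.inner ℝ hF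
  have dν : ∀ (H : Plane → E4), ContDiff ℝ ∞ H → ∀ u y,
      D u (fun y => ⟪-ν, H y⟫) y = ⟪-ν, D u H y⟫ := by
    intro H hH u y
    have := D_inner hc hH u y
    rw [D_const] at this
    simpa using this
  have hmin : IsLocalMin (fun y => ⟪-ν, F y⟫) x := by
    refine Filter.Eventually.of_forall fun y => ?_
    have h1 := h.half _ (hK y)
    rw [inner_sub_right] at h1
    simp only [inner_neg_left]
    linarith
  have e1 : D X (fun y => ⟪-ν, F y⟫) x = 0 := by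
    unfold D; rw [hmin.fderiv_eq_zero]; rfl
  rw [dν F hF, inner_neg_left] at e1
  refine ⟨by linarith, ?_⟩
  have hnn := D_D_nonneg hνG hmin X
  have e2 : D X (fun y => ⟪-ν, F y⟫) = fun y => ⟪-ν, D X F y⟫ := funext (dν F hF X)
  rw [e2, dν (D X F) (D_smooth hF X), inner_neg_left] at hnn
  linarith

include hF hiso hK in
theorem asym {x : Plane} {ν : E4} (h : Tch r K (F x) ν) : ∃ (X : Plane) (b : ℝ), X ≠ 0 ∧
    D X (D X F) x = b • ν ∧ b ≤ 0 := by
  set u : Plane := EuclideanSpace.single 0 1 with hu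
  set v : Plane := EuclideanSpace.single 1 1 with hv
  have huu : ⟪u, u⟫ = 1 := by simp [hu]
  have hvv : ⟪v, v⟫ = 1 := by simp [hv]
  have huv : ⟪u, v⟫ = 0 := by
    rw [hu, hv, EuclideanSpace.inner_single_left]; simp
  have hνne : ν ≠ 0 := by
    intro h0
    have := h.unit
    rw [h0, norm_zero] at this
    exact zero_ne_one this
  have hX0 : ∀ s t : ℝ, (s ≠ 0 ∨ t ≠ 0) → s • u + t • v ≠ 0 := by
    intro s t hst h0
    have c0 := congrArg (fun z : Plane => z 0) h0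
    have c1 := congrArg (fun z : Plane => z 1) h0
    simp [hu, hv] at c0 c1
    rcases hst with h | h
    · exact h c0
    · exact h c1
  set p := ⟪ν, D u (D u F) x⟫ with hp
  set q := ⟪ν, D u (D v F) x⟫ with hq
  set w := ⟪ν, D v (D v F) x⟫ with hw
  have hform : ∀ s t : ℝ, s ^ 2 * p + 2 * (s * t) * q + t ^ 2 * w ≤ 0 := by
    intro s t
    have h1 := (form_neg hF hK h (s • u + t • v)).2
    rw [D_D_lin hF, inner_add_right, inner_add_right, real_inner_smul_right, real_inner_smul_right,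
      real_inner_smul_right] at h1
    exact h1
  have hcs : q ^ 2 ≤ p * w := by
    have hp0 : p ≤ 0 := by have := hform 1 0; linarith
    rcases hp0.lt_or_eq with hlt | heq
    · have h2 := hform q (-p)
      have h5 : p * (p * w - q ^ 2) ≤ 0 := by nlinarith
      by_contra hcon
      push Not at hcon
      have : 0 < p * (p * w - q ^ 2) := mul_pos_of_neg_of_neg hlt (by linarith)
      linarith
    · have hq0 : q = 0 := by
        by_contra hq0
        have h3 := hform ((1 - w) / (2 * q)) 1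
        rw [heq] at h3
        have h4 : 2 * ((1 - w) / (2 * q) * 1) * q = 1 - w := by field_simp
        rw [h4] at h3
        linarith
      rw [hq0, heq]
      norm_num
  obtain ⟨s, t, hst, hh⟩ := exists_asymptotic (D u F x) (D v F x) ν
    (D u (D u F) x) (D u (D v F) x) (D v (D v F) x)
    (by rw [metric hiso, huu]) (by rw [metric hiso, hvv]) (by rw [metric hiso, huv])
    hνne (form_neg hF hK h u).1 (form_neg hF hK h v).1
    (tang hF hiso _ _ _ _) (tang hF hiso _ _ _ _) (tang hF hiso _ _ _ _) (tang hF hiso _ _ _ _)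
    (tang hF hiso _ _ _ _) (tang hF hiso _ _ _ _) (gauss hF hiso u v x) hcs
  refine ⟨s • u + t • v, s ^ 2 * p + 2 * (s * t) * q + t ^ 2 * w, hX0 s t hst, ?_, hform s t⟩
  rw [D_D_lin hF, hh, real_inner_self_eq_norm_sq, h.unit]
  congr 1
  rw [one_pow, div_one]

/-- the function of which we take minima -/
noncomputable def fn (F : Plane → E4) (ν₀ c : E4) (ε τ : ℝ) (y : Plane) : ℝ :=
  ⟪ν₀, F y⟫ + ε * (y 0) ^ 2 - τ / 2 * ‖F y - c‖ ^ 2

include hF hiso hK in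
theorem no_min {x : Plane} {ν ν₀ c : E4} (h : Tch r K (F x) ν) {ε τ : ℝ}
    (hκ : τ * ‖F x - c‖ ≤ ⟪ν₀, ν⟫) (hτ : 0 ≤ τ) (hε : 0 ≤ ε) (hετ : 2 * ε < τ) :
    ¬ IsLocalMin (fn F ν₀ c ε τ) x := by
  intro hmin
  obtain ⟨X, b, hX, hXX, hb⟩ := asym hF hiso hK h
  have hc : ContDiff ℝ ∞ (fun _ : Plane => ν₀) := contDiff_const
  set G : Plane → E4 := fun y => F y - c with hG
  have hGs : ContDiff ℝ ∞ G := hF.sub contDiff_const
  have hDG : ∀ u, D u G = D u F := fun u => D_sub_const hF c u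
  have hg1 : ContDiff ℝ ∞ (fun y : Plane => ⟪ν₀, F y⟫) := hc.inner ℝ hF
  have hcoord : ContDiff ℝ ∞ (fun y : Plane => y 0) := by
    exact (EuclideanSpace.proj (𝕜 := ℝ) (0 : Fin 2)).contDiff
  have hg2 : ContDiff ℝ ∞ (fun y : Plane => (y 0) ^ 2) := hcoord.pow 2
  have hg3 : ContDiff ℝ ∞ (fun y : Plane => ⟪G y, G y⟫) := hGs.inner ℝ hGs
  have hg12 : ContDiff ℝ ∞ (fun y : Plane => (1 : ℝ) • ⟪ν₀, F y⟫ + ε • (y 0) ^ 2) :=
    (hg1.const_smul _).add (hg2.const_smul _)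
  have hfn : fn F ν₀ c ε τ = fun y => (1 : ℝ) • ((1 : ℝ) • ⟪ν₀, F y⟫ + ε • (y 0) ^ 2) +
      (-(τ / 2)) • ⟪G y, G y⟫ := by
    funext y
    unfold fn
    rw [real_inner_self_eq_norm_sq]
    simp only [smul_eq_mul, hG]
    ring
  have hg : ContDiff ℝ ∞ (fn F ν₀ c ε τ) := by
    rw [hfn]
    exact (hg12.const_smul _).add (hg3.const_smul _)
  have hnn := D_D_nonneg hg hmin X
  have hDcoord : D X (fun y : Plane => y 0) = fun _ => X 0 := by
    funext y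
    exact congrArg (fun T : Plane →L[ℝ] ℝ => T X)
      (EuclideanSpace.proj (𝕜 := ℝ) (0 : Fin 2)).fderiv
  have hDX : ContDiff ℝ ∞ (D X F) := D_smooth hF X
  have hi1 : ContDiff ℝ ∞ (fun y : Plane => ⟪ν₀, D X F y⟫) := hc.inner ℝ hDX
  have hi3 : ContDiff ℝ ∞ (fun y : Plane => ⟪G y, D X F y⟫) := hGs.inner ℝ hDX
  have hDg1 : D X (fn F ν₀ c ε τ) =
      fun y => (1 : ℝ) • ((1 : ℝ) • ⟪ν₀, D X F y⟫ + (ε * (2 * X 0)) • (y 0)) +
        (-τ) • ⟪G y, D X F y⟫ := by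
    rw [hfn]
    funext y
    rw [D_smul_add hg12 hg3, D_smul_add hg1 hg2]
    have e2 : D X (fun y : Plane => ⟪ν₀, F y⟫) y = ⟪ν₀, D X F y⟫ := by
      have := D_inner hc hF X y
      rw [D_const] at this
      simpa using this
    have e3 : D X (fun y : Plane => (y 0) ^ 2) y = 2 * y 0 * X 0 := by
      have hd : HasFDerivAt (fun y : Plane => y 0) (EuclideanSpace.proj (𝕜 := ℝ) (0 : Fin 2)) y :=
        (EuclideanSpace.proj (𝕜 := ℝ) (0 : Fin 2)).hasFDerivAt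
      have := (hd.pow 2).fderiv
      unfold D
      rw [this]
      simp
    have e4 : D X (fun y : Plane => ⟪G y, G y⟫) y = 2 * ⟪G y, D X F y⟫ := by
      have := D_inner hGs hGs X y
      rw [hDG] at this
      rw [this, real_inner_comm (G y) (D X F y)]
      ring
    rw [e2, e3, e4]
    simp only [smul_eq_mul]
    ring
  have hi12 : ContDiff ℝ ∞ (fun y : Plane => (1 : ℝ) • ⟪ν₀, D X F y⟫ + (ε * (2 * X 0)) • (y 0)) :=
    (hi1.const_smul _).add (hcoord.const_smul _)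
  have e2 : D X (fun y : Plane => ⟪ν₀, D X F y⟫) x = ⟪ν₀, D X (D X F) x⟫ := by
    have := D_inner hc hDX X x
    rw [D_const] at this
    simpa using this
  have e4 : D X (fun y : Plane => ⟪G y, D X F y⟫) x =
      ⟪G x, D X (D X F) x⟫ + ‖X‖ ^ 2 := by
    have := D_inner hGs hDX X x
    rw [hDG] at this
    rw [this, metric hiso, real_inner_self_eq_norm_sq]
  rw [hDg1, D_smul_add hi12 hi3, D_smul_add hi1 hcoord, e2, e4, hDcoord, hXX,
    real_inner_smul_right, real_inner_smul_right] at hnn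
  simp only [smul_eq_mul] at hnn
  have hXn : 0 < ‖X‖ ^ 2 := by
    have := norm_pos_iff.2 hX
    positivity
  have hX0 : (X 0) ^ 2 ≤ ‖X‖ ^ 2 := by
    rw [EuclideanSpace.norm_sq_eq]
    simp only [Real.norm_eq_abs, sq_abs, Fin.sum_univ_two]
    nlinarith [sq_nonneg (X 1)]
  have hin : τ * ⟪G x, ν⟫ ≤ ⟪ν₀, ν⟫ := by
    have h1 : ⟪G x, ν⟫ ≤ ‖G x‖ := by
      have := real_inner_le_norm (G x) ν
      rwa [h.unit, mul_one] at this
    exact (mul_le_mul_of_nonneg_left h1 hτ).trans hκ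
  have h1 : b * (⟪ν₀, ν⟫ - τ * ⟪G x, ν⟫) ≤ 0 := mul_nonpos_of_nonpos_of_nonneg hb (by linarith)
  have h2 : 2 * ε * (X 0) ^ 2 ≤ 2 * ε * ‖X‖ ^ 2 := mul_le_mul_of_nonneg_left hX0 (by positivity)
  have h3 : 2 * ε * ‖X‖ ^ 2 < τ * ‖X‖ ^ 2 := mul_lt_mul_of_pos_right hετ hXn
  nlinarith

end form

section strips

variable {r a B : ℝ} {K : Set E4} {F : Plane → E4} (hF : ContDiff ℝ ∞ F)
  (hiso : ∀ x w, ‖fderiv ℝ F x w‖ = ‖w‖) (hr : 0 < r) (hK : ∀ x, F x ∈ K)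
  (hfr : ∀ x, F x ∈ frontier K) (N : Plane → E4) (hN : ∀ x, Tch r K (F x) (N x))
  (ha0 : 0 < a) (hgl : ∀ t v : ℝ, F (pt (-t) (v + a)) = F (pt t v))
  (hB0 : 0 < B) (hB : ∀ x y, ‖F x - F y‖ ≤ B)

/-- the depth of `F y` below the tangent hyperplane at `F (ρ, 0)` -/
noncomputable def dep (F N : Plane → E4) (ρ : ℝ) (y : Plane) : ℝ :=
  ⟪N (pt ρ 0), F (pt ρ 0) - F y⟫

include hF hiso hgl ha0 hfr hN hr in
theorem bd_dep (ρ v : ℝ) : dep F N ρ (pt ρ v) ≤ a ^ 2 / (2 * r) := by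
  unfold dep
  have h1 := A2 hr (hN (pt ρ 0)) (hfr (pt ρ v))
  have h2 : ‖F (pt ρ v) - F (pt ρ 0)‖ ≤ a := by
    obtain ⟨w, hw, hw2⟩ := (per hgl ρ).exists_mem_Ico (by linarith : 0 < 2 * a) v (-a)
    have hw3 : F (pt ρ v) = F (pt ρ w) := hw2
    rw [hw3]
    have hwa : |w| ≤ a := by
      rw [abs_le]
      constructor
      · exact hw.1
      · have := hw.2; linarith
    refine (lip hF hiso _ _).trans ((pt_dist _ _ _ _).trans ?_)
    simpa using hwa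
  have h3 : ‖F (pt ρ v) - F (pt ρ 0)‖ ^ 2 ≤ a ^ 2 := by gcongr
  rw [le_div_iff₀ (by positivity)]
  linarith

include hF hiso hgl ha0 hfr hN hr in
theorem bd_dep_abs (ρ : ℝ) (hρ : 0 ≤ ρ) (p : Plane) (hp : |p 0| = ρ) :
    dep F N ρ p ≤ a ^ 2 / (2 * r) := by
  rcases abs_eq hρ |>.1 hp with h | h
  · have := bd_dep hF hiso hr hfr N hN ha0 hgl ρ (p 1)
    rw [← h] at this ⊢
    rwa [pt_eta] at this
  · have h1 := hgl (-ρ) (p 1)
    rw [neg_neg, ← h, pt_eta] at h1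
    have h2 := bd_dep hF hiso hr hfr N hN ha0 hgl ρ (p 1 + a)
    unfold dep at h2 ⊢
    rw [← h1]
    exact h2

/-- The minimum of a periodic function over a strip. -/
theorem exists_strip_min {g : Plane → ℝ} (hg : Continuous g) (ha : 0 < a)
    (hper : ∀ t v : ℝ, ∃ w ∈ Set.Icc 0 (2 * a), g (pt t v) = g (pt t w)) {ρ : ℝ} (hρ : 0 ≤ ρ) :
    ∃ p : Plane, |p 0| ≤ ρ ∧ ∀ y : Plane, |y 0| ≤ ρ → g p ≤ g y := by
  set C : Set Plane := (fun q : ℝ × ℝ => pt q.1 q.2) '' (Set.Icc (-ρ) ρ ×ˢ Set.Icc 0 (2 * a))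
    with hC
  have hCc : IsCompact C := (isCompact_Icc.prod isCompact_Icc).image continuous_pt
  have hCne : C.Nonempty := ⟨pt 0 0, ⟨(0, 0), ⟨⟨by simpa using hρ, hρ⟩, ⟨le_refl _, by positivity⟩⟩, rfl⟩⟩
  obtain ⟨p, hpC, hpmin⟩ := hCc.exists_isMinOn hCne hg.continuousOn
  obtain ⟨⟨t₀, v₀⟩, ⟨ht₀, hv₀⟩, hp⟩ := hpC
  simp only at hp ht₀ hv₀
  refine ⟨p, ?_, ?_⟩
  · rw [← hp, pt_zero]; exact abs_le.2 ht₀
  · intro y hy
    obtain ⟨w, hw, hw2⟩ := hper (y 0) (y 1)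
    rw [pt_eta] at hw2
    rw [hw2]
    exact hpmin ⟨(y 0, w), ⟨abs_le.1 hy, hw⟩, rfl⟩

include hF hgl ha0 in
theorem fn_min (ν₀ c : E4) (ε τ : ℝ) {ρ : ℝ} (hρ : 0 ≤ ρ) :
    ∃ p : Plane, |p 0| ≤ ρ ∧ ∀ y : Plane, |y 0| ≤ ρ → fn F ν₀ c ε τ p ≤ fn F ν₀ c ε τ y := by
  have hcoord : Continuous (fun y : Plane => y 0) := by fun_prop
  refine exists_strip_min ?_ ha0 ?_ hρ
  · exact ((continuous_const.inner hF.continuous).add (continuous_const.mul (hcoord.pow 2))).sub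
      (continuous_const.mul ((hF.continuous.sub continuous_const).norm.pow 2))
  · intro t v
    obtain ⟨w, hw, hw2⟩ := (per hgl t).exists_mem_Ico₀ (by linarith : 0 < 2 * a) v
    have e : F (pt t v) = F (pt t w) := hw2
    refine ⟨w, ⟨hw.1, hw.2.le⟩, ?_⟩
    unfold fn
    rw [e, pt_zero, pt_zero]

theorem abs_lt_nhds {p : Plane} {ρ : ℝ} (h : |p 0| < ρ) : ∀ᶠ y in 𝓝 p, |y 0| < ρ := by
  have hcoord : Continuous (fun y : Plane => |y 0|) := by fun_prop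
  exact (hcoord.tendsto p).eventually (gt_mem_nhds h)

include hF hiso hgl ha0 hK hN hr hB in
/-- The minimum lies on the boundary of the strip. -/
theorem min_bd (ρ : ℝ) (hρ : 0 ≤ ρ) (δ₁ : ℝ)
    (hclose : ∀ y : Plane, |y 0| ≤ ρ → dep F N ρ y ≤ δ₁) {ε τ : ℝ} (hτB : τ * B ≤ 1 - δ₁ / r)
    (hτ : 0 ≤ τ) (hε : 0 ≤ ε) (hετ : 2 * ε < τ) :
    ∃ p : Plane, |p 0| = ρ ∧ ∀ y : Plane, |y 0| ≤ ρ →
      fn F (N (pt ρ 0)) (F (pt ρ 0)) ε τ p ≤ fn F (N (pt ρ 0)) (F (pt ρ 0)) ε τ y := by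
  obtain ⟨p, hp, hmin⟩ := fn_min hF ha0 hgl (N (pt ρ 0)) (F (pt ρ 0)) ε τ hρ
  refine ⟨p, ?_, hmin⟩
  by_contra hne
  have hlt : |p 0| < ρ := lt_of_le_of_ne hp hne
  have hloc : IsLocalMin (fn F (N (pt ρ 0)) (F (pt ρ 0)) ε τ) p := by
    filter_upwards [abs_lt_nhds hlt] with z hz
    exact hmin z hz.le
  have hA3 := A3 hr (hN (pt ρ 0)) (hN p)
  have hd : ⟪N (pt ρ 0), F (pt ρ 0) - F p⟫ ≤ δ₁ := hclose p hp
  refine no_min hF hiso hK (hN p) ?_ hτ hε hετ hloc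
  have h5 : 1 - ⟪N (pt ρ 0), N p⟫ ≤ δ₁ / r := by
    rw [le_div_iff₀ hr]; linarith
  have h6 : τ * ‖F p - F (pt ρ 0)‖ ≤ τ * B := mul_le_mul_of_nonneg_left (hB _ _) hτ
  linarith

include hF hiso hgl ha0 hfr hK hN hr hB hB0 in
theorem strip_step (ρ : ℝ) (hρ : 0 ≤ ρ) (δ₁ : ℝ) (hδ₁ : δ₁ < r)
    (hclose : ∀ y : Plane, |y 0| ≤ ρ → dep F N ρ y ≤ δ₁) (y : Plane) (hy : |y 0| ≤ ρ) :
    dep F N ρ y ≤ a ^ 2 / (2 * r) := by
  have hκ : 0 < 1 - δ₁ / r := by
    have : δ₁ / r < 1 := by rw [div_lt_one hr]; exact hδ₁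
    linarith
  apply le_of_forall_pos_le_add
  intro e he
  set τ := min ((1 - δ₁ / r) / B) (e / B ^ 2) with hτd
  have hτ0 : 0 < τ := by rw [hτd]; positivity
  have hτ1 : τ * B ≤ 1 - δ₁ / r := by
    have := min_le_left ((1 - δ₁ / r) / B) (e / B ^ 2)
    rwa [← hτd, le_div_iff₀ hB0] at this
  have hτ2 : τ * B ^ 2 ≤ e := by
    have := min_le_right ((1 - δ₁ / r) / B) (e / B ^ 2)
    rwa [← hτd, le_div_iff₀ (by positivity)] at this
  obtain ⟨p, hp, hmin⟩ := min_bd hF hiso hr hK N hN ha0 hgl hB ρ hρ δ₁ hclose (ε := 0) hτ1 hτ0.le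
    le_rfl (by linarith)
  have hval := bd_dep_abs hF hiso hr hfr N hN ha0 hgl ρ hρ p hp
  have h1 := hmin y hy
  unfold fn at h1
  unfold dep at hval ⊢
  rw [inner_sub_right] at hval ⊢
  have h2 : ‖F p - F (pt ρ 0)‖ ^ 2 ≤ B ^ 2 := by
    have := hB p (pt ρ 0)
    gcongr
  have h3 : τ / 2 * ‖F p - F (pt ρ 0)‖ ^ 2 ≤ τ / 2 * B ^ 2 := by gcongr
  have h4 : 0 ≤ τ / 2 * ‖F y - F (pt ρ 0)‖ ^ 2 := by positivity
  linarith

include hF hiso hgl ha0 hfr hK hN hr hB hB0 in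
theorem strip_all (hδ : a ^ 2 / (2 * r) < r) : ∃ η : ℝ, 0 < η ∧ ∀ n : ℕ,
    ∀ ρ : ℝ, 0 ≤ ρ → ρ ≤ n * η → ∀ y : Plane, |y 0| ≤ ρ → dep F N ρ y ≤ a ^ 2 / (2 * r) := by
  set δ := a ^ 2 / (2 * r) with hδd
  have hδ0 : 0 ≤ δ := by positivity
  set c := B / r + 2 with hc
  have hc0 : 0 < c := by positivity
  refine ⟨(r - δ) / (2 * c), by have : 0 < r - δ := by linarith
                                positivity, ?_⟩
  set η := (r - δ) / (2 * c) with hη
  have hη0 : 0 < η := by have : 0 < r - δ := by linarith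
                         positivity
  have hηc : η * c = (r - δ) / 2 := by rw [hη]; field_simp
  intro n
  induction n with
  | zero =>
    intro ρ hρ hρ' y hy
    have h0 : ρ = 0 := le_antisymm (by simpa using hρ') hρ
    subst h0
    have : |y 0| = 0 := le_antisymm hy (abs_nonneg _)
    exact bd_dep_abs hF hiso hr hfr N hN ha0 hgl 0 le_rfl y this
  | succ n ih =>
    intro ρ hρ hρ'
    set ρ₀ := max (ρ - η) 0 with hρ₀
    have hρ₀0 : 0 ≤ ρ₀ := le_max_right _ _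
    have hρ₀n : ρ₀ ≤ n * η := by
      apply max_le
      · push_cast at hρ'; linarith
      · positivity
    have hρ₀ρ : ρ₀ ≤ ρ := max_le (by linarith) hρ
    have hρρ₀ : ρ - ρ₀ ≤ η := by have := le_max_left (ρ - η) 0; linarith
    have hP := ih ρ₀ hρ₀0 hρ₀n
    intro y hy
    refine strip_step hF hiso hr hK hfr N hN ha0 hgl hB0 hB ρ hρ ((r + δ) / 2) (by linarith) ?_ y hy
    intro y hy
    set t' := max (-ρ₀) (min ρ₀ (y 0)) with ht'
    have htt : |t'| ≤ ρ₀ := by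
      rw [abs_le]
      constructor
      · exact le_max_left _ _
      · exact max_le (by linarith) (min_le_left _ _)
    have htd : |t' - y 0| ≤ η := by
      have := abs_le.1 hy
      rw [abs_le, ht']
      rcases le_total (y 0) (-ρ₀) with h | h
      · rw [min_eq_right (by linarith), max_eq_left h]
        constructor <;> linarith
      · rcases le_total ρ₀ (y 0) with h' | h'
        · rw [min_eq_left h', max_eq_right (by linarith)]
          constructor <;> linarith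
        · rw [min_eq_right h', max_eq_right h]
          constructor <;> linarith
    set y' := pt t' (y 1) with hy'
    have hy'0 : |y' 0| ≤ ρ₀ := by rw [hy', pt_zero]; exact htt
    set ν₀ := N (pt ρ₀ 0) with hν₀
    set ν₁ := N (pt ρ 0) with hν₁
    set q₀ := F (pt ρ₀ 0) with hq₀
    set q₁ := F (pt ρ 0) with hq₁
    have hu0 : ‖ν₀‖ = 1 := (hN _).unit
    have hu1 : ‖ν₁‖ = 1 := (hN _).unit
    have e1 : ‖q₁ - q₀‖ ≤ η := by
      refine (lip hF hiso _ _).trans ((pt_dist _ _ _ _).trans ?_)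
      rw [sub_self, abs_zero, add_zero, abs_of_nonneg (by linarith : 0 ≤ ρ - ρ₀)]
      exact hρρ₀
    have e2 : ‖F y' - F y‖ ≤ η := by
      refine (lip hF hiso _ _).trans ?_
      have e : ‖y' - y‖ = ‖pt t' (y 1) - pt (y 0) (y 1)‖ := by rw [pt_eta]
      rw [e]
      refine (pt_dist _ _ _ _).trans ?_
      simpa using htd
    have e3 : ⟪ν₀, q₀ - F y'⟫ ≤ δ := hP y' hy'0
    have e4 : ‖q₀ - F y'‖ ≤ B := hB _ _
    have e5 : ‖ν₁ - ν₀‖ ≤ η / r := by
      have h1 := A3 hr (hN (pt ρ₀ 0)) (hN (pt ρ 0))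
      have h2 := A2 hr (hN (pt ρ₀ 0)) (hfr (pt ρ 0))
      rw [← hν₀, ← hν₁, ← hq₀, ← hq₁] at h1
      rw [← hν₀, ← hq₀, ← hq₁] at h2
      have h3 : ‖q₁ - q₀‖ ^ 2 ≤ η ^ 2 := by gcongr
      have h4 : ‖ν₁ - ν₀‖ ^ 2 = 2 * (1 - ⟪ν₀, ν₁⟫) := by
        rw [norm_sub_sq_real, hu0, hu1, real_inner_comm]; ring
      have h5 : ‖ν₁ - ν₀‖ ^ 2 ≤ (η / r) ^ 2 := by
        rw [h4, div_pow, le_div_iff₀ (by positivity)]
        have h6 : 2 * r * (r * (1 - ⟪ν₀, ν₁⟫)) ≤ η ^ 2 :=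
          (mul_le_mul_of_nonneg_left h1 (by positivity)).trans (h2.trans h3)
        linarith
      exact (sq_le_sq₀ (norm_nonneg _) (by positivity)).1 h5
    show ⟪ν₁, q₁ - F y⟫ ≤ _
    have e6 : ⟪ν₁, q₁ - F y⟫ = ⟪ν₀, q₀ - F y'⟫ + ⟪ν₁ - ν₀, q₀ - F y'⟫ +
        ⟪ν₁, (q₁ - q₀) + (F y' - F y)⟫ := by
      rw [inner_sub_left, show (q₁ - q₀) + (F y' - F y) = (q₁ - F y) - (q₀ - F y') by abel,
        inner_sub_right ν₁ (q₁ - F y) (q₀ - F y')]
      ring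
    have e7 : ⟪ν₁ - ν₀, q₀ - F y'⟫ ≤ η / r * B := by
      refine (real_inner_le_norm _ _).trans ?_
      exact mul_le_mul e5 e4 (norm_nonneg _) (by positivity)
    have e8 : ⟪ν₁, (q₁ - q₀) + (F y' - F y)⟫ ≤ η + η := by
      refine (real_inner_le_norm _ _).trans ?_
      rw [hu1, one_mul]
      exact (norm_add_le _ _).trans (add_le_add e1 e2)
    have e9 : η / r * B + (η + η) = (r - δ) / 2 := by
      rw [← hηc, hc]; ring
    rw [e6]
    linarith

include hF hiso hgl ha0 hfr hK hN hr hB hB0 in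
theorem core (ha : a < √2 * r) : False := by
  have hδ : a ^ 2 / (2 * r) < r := by
    rw [div_lt_iff₀ (by positivity)]
    have h1 : a ^ 2 < (√2 * r) ^ 2 := by gcongr
    rw [mul_pow, Real.sq_sqrt (by norm_num)] at h1
    nlinarith
  obtain ⟨η, hη, hall⟩ := strip_all hF hiso hr hK hfr N hN ha0 hgl hB0 hB hδ
  set δ := a ^ 2 / (2 * r) with hδd
  have hδ0 : 0 ≤ δ := by positivity
  have hκ0 : 0 < 1 - δ / r := by
    have : δ / r < 1 := by rw [div_lt_one hr]; exact hδ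
    linarith
  set τ : ℝ := (1 - δ / r) / B with hτ
  have hτ0 : 0 < τ := by positivity
  have hτB : τ * B ≤ 1 - δ / r := by rw [hτ]; field_simp; exact le_rfl
  obtain ⟨ρ, hρ0, hρ⟩ : ∃ ρ : ℝ, 0 ≤ ρ ∧ δ + τ / 2 * B ^ 2 < τ / 4 * ρ ^ 2 := by
    refine ⟨Real.sqrt ((δ + τ / 2 * B ^ 2 + 1) / (τ / 4)), Real.sqrt_nonneg _, ?_⟩
    rw [Real.sq_sqrt (by positivity)]
    have : τ / 4 * ((δ + τ / 2 * B ^ 2 + 1) / (τ / 4)) = δ + τ / 2 * B ^ 2 + 1 := by field_simp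
    rw [this]
    linarith
  obtain ⟨n, hn⟩ := exists_nat_ge (ρ / η)
  have hP := hall n ρ hρ0 (by rwa [div_le_iff₀ hη] at hn)
  obtain ⟨p, hp, hmin⟩ := min_bd hF hiso hr hK N hN ha0 hgl hB ρ hρ0 δ hP (ε := τ / 4) hτB hτ0.le
    (by positivity) (by linarith)
  have hdp := bd_dep_abs hF hiso hr hfr N hN ha0 hgl ρ hρ0 p hp
  have h1 := hmin (pt 0 0) (by rw [pt_zero, abs_zero]; exact hρ0)
  have h2 := (hN (pt ρ 0)).half _ (hK (pt 0 0))
  have h3 : (p 0) ^ 2 = ρ ^ 2 := by rw [← sq_abs, hp]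
  unfold fn at h1
  unfold dep at hdp
  rw [h3, pt_zero] at h1
  rw [inner_sub_right] at hdp h2
  have h5 : ‖F p - F (pt ρ 0)‖ ^ 2 ≤ B ^ 2 := by
    have := hB p (pt ρ 0)
    gcongr
  have h6 : τ / 2 * ‖F p - F (pt ρ 0)‖ ^ 2 ≤ τ / 2 * B ^ 2 := by gcongr
  have h7 : 0 ≤ τ / 2 * ‖F (pt 0 0) - F (pt ρ 0)‖ ^ 2 := by positivity
  have h4 : τ / 4 * (0:ℝ) ^ 2 = 0 := by ring
  rw [h4] at h1
  linarith

end strips

/-- **No narrow flat Moebius band in the boundary of a bounded set with inner touching balls and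
supporting half spaces.** -/
theorem roll' (r : ℝ) (K : Set E4) (hr : 0 < r) (hKc : IsClosed K) (hKb : Bornology.IsBounded K)
    (hT : ∀ p ∈ frontier K, ∃ ν, Tch r K p ν) (a : ℝ) (ha0 : 0 < a) (ha : a < √2 * r) :
    ¬ ∃ g : MoebiusBand a → E4, IsIsometricImmersion a g ∧ ∀ p, g p ∈ frontier K := by
  rintro ⟨g, hg, hgK⟩
  set F : Plane → E4 := fun x => g (proj a x) with hF
  have hfr : ∀ x, F x ∈ frontier K := fun x => hgK _
  have hK : ∀ x, F x ∈ K := fun x => hKc.frontier_subset (hfr x)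
  choose N hN using fun x => hT (F x) (hfr x)
  have hgl : ∀ t v : ℝ, F (pt (-t) (v + a)) = F (pt t v) := by
    intro t v
    have h1 : glide a (pt t v) = pt (-t) (v + a) := by
      show !₂[-(pt t v) 0, (pt t v) 1 + a] = pt (-t) (v + a)
      rw [pt_zero, pt_one]; rfl
    have h2 : proj a (glide a (pt t v)) = proj a (pt t v) := by
      apply Quotient.sound
      exact ⟨⟨glide a, Subgroup.mem_zpowers _⟩, rfl⟩
    show g (proj a (pt (-t) (v + a))) = g (proj a (pt t v))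
    rw [← h1, h2]
  obtain ⟨B, hB⟩ := Metric.isBounded_iff.1 hKb
  refine core (B := max B 1) hg.smooth hg.isometric hr hK hfr N hN ha0 hgl (by positivity)
    (fun x y => ?_) ha
  have := hB (hK x) (hK y)
  rw [dist_eq_norm] at this
  exact this.trans (le_max_left _ _)

end Pool.Agent.Y520.MB
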