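import Mathlib

/-! Flat Moebius bands in closed hypersurfaces of Euclidean 4-space in which a ball rolls freely:
definitions and statements (MP_174134_gt). -/

set_option autoImplicit false

namespace Pool.Agent.Y520.MB

open scoped RealInnerProductSpace ContDiff Topology

/-- The Euclidean plane. The coordinates of a point `x` are `t = x 0` and `v = x 1`. -/
abbrev Plane : Type := EuclideanSpace ℝ (Fin 2)

/-- Euclidean 4-space. -/
abbrev E4 : Type := EuclideanSpace ℝ (Fin 4)

/-- The glide reflection `(t, v) ↦ (-t, v + a)` of the plane. -/
noncomputable def glide (a : ℝ) : Equiv.Perm Plane where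
  toFun x := !₂[-x 0, x 1 + a]
  invFun x := !₂[-x 0, x 1 - a]
  left_inv x := by ext i; fin_cases i <;> simp
  right_inv x := by ext i; fin_cases i <;> simp

/-- The complete flat Moebius band of width `a`: the quotient of the plane by the group
generated by the glide reflection `(t, v) ↦ (-t, v + a)`. -/
def MoebiusBand (a : ℝ) : Type :=
  MulAction.orbitRel.Quotient (Subgroup.zpowers (glide a)) Plane

/-- The covering projection from the plane to the band. -/
noncomputable def proj (a : ℝ) (x : Plane) : MoebiusBand a := Quotient.mk _ x

/-- A map `g` from the band to Euclidean 4-space is a smooth isometric immersion: its lift to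
the plane (through the covering projection, which is a local isometry and a local
diffeomorphism) is smooth and its differential preserves the lengths of all tangent vectors. -/
structure IsIsometricImmersion (a : ℝ) (g : MoebiusBand a → E4) : Prop where
  smooth : ContDiff ℝ ∞ (fun x => g (proj a x))
  isometric : ∀ x w : Plane, ‖fderiv ℝ (fun y => g (proj a y)) x w‖ = ‖w‖

/-- `E` is an ellipsoid with semi-axes `c_i`: in suitable Cartesian coordinates `y = A p` it is
given by `∑ y_i ^ 2 / c_i ^ 2 = 1` with all `c_i > 0`. -/
def IsEllipsoid (c : Fin 4 → ℝ) (E : Set E4) : Prop :=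
  ∃ A : E4 ≃ᵃⁱ[ℝ] E4, (∀ i, 0 < c i) ∧ E = {p : E4 | ∑ i, (A p i) ^ 2 / (c i) ^ 2 = 1}

/-- A closed set `K` such that at every boundary point `p` there is a unit vector `ν` for which the
closed ball of radius `r` touching at `p` from inside (centre `p - r ν`) is contained in `K` and `K`
is contained in the closed ball of radius `R` touching at `p` from outside (centre `p - R ν`).
(By Blaschke's rolling theorem all convex bodies whose boundary is of class C^2 with principal
curvatures between `1 / R` and `1 / r` have this property.) -/
structure Rolling (r R : ℝ) (K : Set E4) : Prop where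
  pos : 0 < r
  closed : IsClosed K
  touch : ∀ p ∈ frontier K, ∃ ν : E4, ‖ν‖ = 1 ∧ Metric.closedBall (p - r • ν) r ⊆ K ∧
    K ⊆ Metric.closedBall (p - R • ν) R

/-- No complete flat Moebius band of width `a < √2 r` has an isometric immersion in the boundary. -/
def S_ROLL : Prop := ∀ (r R : ℝ) (K : Set E4), Rolling r R K → ∀ a : ℝ, 0 < a → a < √2 * r →
  ¬ ∃ g : MoebiusBand a → E4, IsIsometricImmersion a g ∧ ∀ p, g p ∈ frontier K

/-- Ellipsoids are boundaries of bodies of this kind, with `r = c_min² / c_max`. -/
def S_ELL : Prop := ∀ (c : Fin 4 → ℝ) (E : Set E4), IsEllipsoid c E → ∀ r : ℝ, 0 < r →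
  (∀ i j, r * c i ≤ (c j) ^ 2) → ∃ (R : ℝ) (K : Set E4), Rolling r R K ∧ frontier K = E

end Pool.Agent.Y520.MB
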